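import Mathlib

namespace Pool.Agent.Results.MP_70096d_gt.NotScottWF

open Set Topology

/-- a dcpo: every nonempty directed set has a supremum -/
def IsDcpo (P : Type) [PartialOrder P] : Prop :=
  ∀ D : Set P, D.Nonempty → DirectedOn (· ≤ ·) D → ∃ a, IsLUB D a

/-- the Scott topology -/
@[reducible] def scott (P : Type) [PartialOrder P] : TopologicalSpace P where
  IsOpen U := IsUpperSet U ∧
    ∀ (D : Set P) (a : P), D.Nonempty → DirectedOn (· ≤ ·) D → IsLUB D a → a ∈ U → (D ∩ U).Nonempty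
  isOpen_univ := ⟨isUpperSet_univ, fun D _ hD _ _ _ => by simpa using hD⟩
  isOpen_inter := by
    rintro U V ⟨hU, hU'⟩ ⟨hV, hV'⟩
    refine ⟨hU.inter hV, fun D a h1 h2 h3 h4 => ?_⟩
    obtain ⟨x, hx, hxU⟩ := hU' D a h1 h2 h3 h4.1
    obtain ⟨y, hy, hyV⟩ := hV' D a h1 h2 h3 h4.2
    obtain ⟨z, hz, hxz, hyz⟩ := h2 x hx y hy
    exact ⟨z, hz, hU hxz hxU, hV hyz hyV⟩
  isOpen_sUnion := by
    intro S hS
    refine ⟨isUpperSet_sUnion fun U hU => (hS U hU).1, ?_⟩
    rintro D a h1 h2 h3 ⟨U, hU, ha⟩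
    obtain ⟨x, hx, hxU⟩ := (hS U hU).2 D a h1 h2 h3 ha
    exact ⟨x, hx, U, hU, hxU⟩

/-- saturated: an intersection of open sets -/
def Saturated {X : Type} [TopologicalSpace X] (K : Set X) : Prop :=
  ∃ S : Set (Set X), (∀ U ∈ S, IsOpen U) ∧ K = ⋂₀ S

/-- well-filtered `T₀` space -/
def WellFiltered (X : Type) [TopologicalSpace X] : Prop :=
  T0Space X ∧ ∀ F : Set (Set X), F.Nonempty → DirectedOn (· ⊇ ·) F →
    (∀ K ∈ F, IsCompact K ∧ Saturated K) → ∀ U, IsOpen U → ⋂₀ F ⊆ U → ∃ K ∈ F, K ⊆ U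

/-- well-filtered dcpo: some topology compatible with the order is well-filtered -/
def WFDcpo (P : Type) [PartialOrder P] : Prop :=
  IsDcpo P ∧ ∃ τ : TopologicalSpace P, (∀ x, @closure P τ {x} = Iic x) ∧ @WellFiltered P τ

/-- Johnstone's dcpo with a top element added -/
inductive J : Type
  | fin (j k : ℕ)
  | inf (j : ℕ)
  | top

namespace J

def le : J → J → Prop
  | fin j k, fin m n => j = m ∧ k ≤ n
  | fin j k, inf m => j = m ∨ k ≤ m
  | inf j, inf m => j = m
  | _, top => True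
  | _, _ => False

instance : PartialOrder J where
  le := le
  le_refl a := by cases a <;> simp [le]
  le_trans a b c := by cases a <;> cases b <;> cases c <;> simp [le] <;> omega
  le_antisymm a b := by cases a <;> cases b <;> simp [le] <;> omega

theorem le_def (a b : J) : a ≤ b ↔ le a b := Iff.rfl

theorem le_top (a : J) : a ≤ top := by cases a <;> trivial

theorem col_lub (j : ℕ) {D : Set J} (h1 : ∀ x ∈ D, ∃ k, x = fin j k)
    (h2 : ∀ n, ∃ k, n ≤ k ∧ fin j k ∈ D) : IsLUB D (inf j) := by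
  constructor
  · intro x hx
    obtain ⟨k, rfl⟩ := h1 x hx
    exact Or.inl rfl
  · intro b hb
    cases b with
    | fin m n =>
      obtain ⟨k, hk, hD⟩ := h2 (n + 1)
      have := (hb hD).2
      omega
    | inf m =>
      obtain ⟨k, hk, hD⟩ := h2 (m + 1)
      rcases hb hD with h | h
      · exact h
      · omega
    | top => trivial

/-- a directed set has a greatest element, or is unbounded in one column -/
theorem directed_cases {D : Set J} (h1 : D.Nonempty) (h2 : DirectedOn (· ≤ ·) D) :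
    (∃ a, IsGreatest D a) ∨ ∃ j, IsLUB D (inf j) := by
  by_cases ht : top ∈ D
  · exact Or.inl ⟨top, ht, fun x _ => le_top x⟩
  by_cases hi : ∃ m, inf m ∈ D
  · obtain ⟨m, hm⟩ := hi
    refine Or.inl ⟨inf m, hm, fun x hx => ?_⟩
    obtain ⟨z, hz, hxz, hmz⟩ := h2 x hx _ hm
    cases z with
    | fin a b => exact hmz.elim
    | inf a => have : m = a := hmz; subst this; exact hxz
    | top => exact absurd hz ht
  obtain ⟨x₀, hx₀⟩ := h1
  cases x₀ with
  | inf m => exact absurd ⟨m, hx₀⟩ hi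
  | top => exact absurd hx₀ ht
  | fin j k₀ =>
    have hcol : ∀ x ∈ D, ∃ k, x = fin j k := by
      intro x hx
      obtain ⟨z, hz, hxz, hmz⟩ := h2 x hx _ hx₀
      cases z with
      | inf a => exact absurd ⟨a, hz⟩ hi
      | top => exact absurd hz ht
      | fin a b =>
        cases x with
        | fin c d => exact ⟨d, by rw [hxz.1, hmz.1]⟩
        | inf c => exact hxz.elim
        | top => exact hxz.elim
    by_cases hb : ∀ n, ∃ k, n ≤ k ∧ fin j k ∈ D
    · exact Or.inr ⟨j, col_lub j hcol hb⟩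
    · push Not at hb
      obtain ⟨n, hn⟩ := hb
      have hfin : {k | fin j k ∈ D}.Finite := (finite_lt_nat n).subset fun k hk => by
        by_contra hc
        exact hn k (not_lt.1 hc) hk
      obtain ⟨k, hk, hmax⟩ := exists_max_image _ id hfin ⟨k₀, hx₀⟩
      refine Or.inl ⟨fin j k, hk, fun x hx => ?_⟩
      obtain ⟨l, rfl⟩ := hcol x hx
      exact ⟨rfl, hmax l hx⟩

def Cl (C : Set J) : Prop :=
  IsLowerSet C ∧ (∀ j, (∀ k, fin j k ∈ C) → inf j ∈ C) ∧ top ∉ C ∧ {m | inf m ∈ C}.Finite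

@[reducible] def tau : TopologicalSpace J :=
  TopologicalSpace.ofClosed {C | C = univ ∨ Cl C}
    (Or.inr ⟨isLowerSet_empty, fun _ h => (h 0).elim, id, by simp⟩)
    (by
      intro A hA
      by_cases h : ∃ C ∈ A, Cl C
      · obtain ⟨C, hC, hCl⟩ := h
        refine Or.inr ⟨?_, ?_, fun ht => hCl.2.2.1 (ht C hC), hCl.2.2.2.subset fun m hm => hm C hC⟩
        · refine isLowerSet_sInter fun B hB => ?_
          rcases hA hB with rfl | hB'
          exacts [isLowerSet_univ, hB'.1]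
        · intro j hj B hB
          rcases hA hB with rfl | hB'
          exacts [trivial, hB'.2.1 j fun k => hj k B hB]
      · left
        rw [sInter_eq_univ]
        intro B hB
        rcases hA hB with rfl | hB'
        exacts [rfl, absurd ⟨B, hB, hB'⟩ h])
    (by
      rintro A (rfl | hA) B (rfl | hB)
      · left; simp
      · left; simp
      · left; simp
      · refine Or.inr ⟨hA.1.union hB.1, ?_, fun h => h.elim hA.2.2.1 hB.2.2.1,
          (hA.2.2.2.union hB.2.2.2).subset fun m hm => hm⟩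
        intro j hj
        by_contra hc
        rw [mem_union, not_or] at hc
        obtain ⟨a, ha⟩ := not_forall.1 (mt (hA.2.1 j) hc.1)
        obtain ⟨b, hb⟩ := not_forall.1 (mt (hB.2.1 j) hc.2)
        rcases hj (max a b) with h | h
        · exact ha (hA.1 (show fin j a ≤ fin j (max a b) from ⟨rfl, le_max_left _ _⟩) h)
        · exact hb (hB.1 (show fin j b ≤ fin j (max a b) from ⟨rfl, le_max_right _ _⟩) h))

theorem tau_open (U : Set J) : IsOpen[tau] U ↔ (Uᶜ = univ ∨ Cl Uᶜ) := Iff.rfl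

theorem tau_closed (C : Set J) : IsClosed[tau] C ↔ (C = univ ∨ Cl C) := by
  rw [← @isOpen_compl_iff _ _ tau, tau_open, compl_compl]

theorem tau_lower {C : Set J} (h : IsClosed[tau] C) : IsLowerSet C := by
  rcases (tau_closed C).1 h with rfl | h
  exacts [isLowerSet_univ, h.1]

theorem tau_Iic (x : J) : IsClosed[tau] (Iic x) := by
  rw [tau_closed]
  cases x with
  | top => left; ext y; simp [le_top]
  | fin j k =>
    refine Or.inr ⟨isLowerSet_Iic _, fun m hm => ?_, id, ?_⟩
    · have := (hm (k + 1)).2; omega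
    · exact finite_empty.subset fun m hm => hm
  | inf j =>
    refine Or.inr ⟨isLowerSet_Iic _, fun m hm => ?_, id, ?_⟩
    · rcases hm (j + 1) with h | h
      · exact h
      · omega
    · exact (finite_singleton j).subset fun m hm => hm

theorem tau_closure (x : J) : @closure J tau {x} = Iic x := by
  letI := tau
  refine Subset.antisymm ((tau_Iic x).closure_subset_iff.2 (by simp)) fun y hy => ?_
  exact tau_lower isClosed_closure hy (subset_closure rfl)

def col : J → ℕ
  | fin j _ => j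
  | inf j => j
  | top => 0

theorem tau_wf : @WellFiltered J tau := by
  letI := tau
  constructor
  · rw [t0Space_iff_inseparable]
    intro x y h
    rw [inseparable_iff_closure_eq, tau_closure, tau_closure] at h
    exact Iic_injective h
  intro F hF hdir hK U hU hFU
  have hup : ∀ K ∈ F, IsUpperSet K := by
    intro K hKF
    obtain ⟨S, hS, rfl⟩ := (hK K hKF).2
    refine isUpperSet_sInter fun V hV => ?_
    have := tau_lower (hS V hV).isClosed_compl
    simpa using this.compl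
  by_contra hc
  push Not at hc
  have hmeet : ∀ K ∈ F, ∃ x ∈ K, x ∉ U := fun K h => not_subset.1 (hc K h)
  rcases (tau_open U).1 hU with h | h
  · have : top ∈ U := hFU fun K hKF => by
      obtain ⟨x, hx, -⟩ := hmeet K hKF
      exact hup K hKF (le_top x) hx
    exact (h ▸ mem_univ top : top ∈ Uᶜ) this
  obtain ⟨K₀, hK₀⟩ := hF
  have hfin : {j | ∃ x ∈ K₀, x ∉ U ∧ col x = j}.Finite := by
    let E : ℕ → Set J := fun n => {x | x ∉ U ∧ ∃ j k, x = fin j k ∧ n ≤ j ∧ inf j ∈ U}
    have hE : ∀ n, IsClosed (E n) := by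
      intro n
      rw [tau_closed]
      refine Or.inr ⟨?_, ?_, ?_, ?_⟩
      · rintro a b hba ⟨ha, j, k, rfl, h1, h2⟩
        refine ⟨h.1 hba ha, ?_⟩
        cases b with
        | fin c d => exact ⟨c, d, rfl, by rw [hba.1]; exact h1, by rw [hba.1]; exact h2⟩
        | inf c => exact hba.elim
        | top => exact hba.elim
      · intro j hj
        obtain ⟨-, j', k, e, -, h2⟩ := hj 0
        cases e
        exact absurd h2 (h.2.1 j fun k => (hj k).1)
      · rintro ⟨-, j, k, e, -⟩; cases e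
      · refine finite_empty.subset ?_
        rintro m ⟨-, j, k, e, -⟩; cases e
    obtain ⟨n, hn⟩ := (hK K₀ hK₀).1.elim_directed_family_closed E hE (by
      rw [eq_empty_iff_forall_notMem]
      rintro x ⟨-, hx⟩
      obtain ⟨-, j, k, rfl, -⟩ := mem_iInter.1 hx 0
      obtain ⟨-, j', k', e, h1, -⟩ := mem_iInter.1 hx (j + 1)
      cases e
      omega) (by
      intro a b
      refine ⟨max a b, ?_, ?_⟩
      · rintro x ⟨h0, j, k, e, h1, h2⟩; exact ⟨h0, j, k, e, (le_max_left _ _).trans h1, h2⟩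
      · rintro x ⟨h0, j, k, e, h1, h2⟩; exact ⟨h0, j, k, e, (le_max_right _ _).trans h1, h2⟩)
    refine ((finite_lt_nat n).union h.2.2.2).subset ?_
    rintro j ⟨x, hx, hxU, rfl⟩
    cases x with
    | top => exact absurd hxU h.2.2.1
    | inf m => exact Or.inr hxU
    | fin m k =>
      by_contra hcon
      simp only [col, mem_union, mem_ofPred_eq, not_or, not_lt, mem_compl_iff, not_not] at hcon
      exact eq_empty_iff_forall_notMem.1 hn _ ⟨hx, hxU, m, k, rfl, hcon.1, hcon.2⟩
  obtain ⟨j, hj⟩ : ∃ j, ∀ K ∈ F, ∃ x ∈ K, x ∉ U ∧ col x = j := by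
    by_contra hcon
    push Not at hcon
    have key : ∀ s : Set ℕ, s.Finite → ∃ K ∈ F, K ⊆ K₀ ∧ ∀ j ∈ s, ∀ x ∈ K, x ∉ U → col x ≠ j := by
      intro s hs
      induction s, hs using Finite.induction_on with
      | empty => exact ⟨K₀, hK₀, subset_rfl, fun _ h => h.elim⟩
      | @insert a s _ _ ih =>
        obtain ⟨K, hK1, hK2, hK3⟩ := ih
        obtain ⟨K', hK1', hK2'⟩ := hcon a
        obtain ⟨L, hL, h1, h2⟩ := hdir K hK1 K' hK1'
        refine ⟨L, hL, fun x hx => hK2 (h1 hx), ?_⟩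
        rintro j (rfl | hj) x hx
        exacts [hK2' x (h2 hx), hK3 j hj x (h1 hx)]
    obtain ⟨K, hK1, hK2, hK3⟩ := key _ hfin
    obtain ⟨x, hx, hxU⟩ := hmeet K hK1
    exact hK3 _ ⟨x, hK2 hx, hxU, rfl⟩ x hx hxU rfl
  by_cases hi : inf j ∈ U
  · obtain ⟨n, hn⟩ := not_forall.1 (mt (h.2.1 j) (not_not.2 hi))
    have hfin' : {k | fin j k ∉ U}.Finite := (finite_lt_nat n).subset fun k hk => by
      by_contra hc
      exact hn (h.1 (show fin j n ≤ fin j k from ⟨rfl, not_lt.1 hc⟩) hk)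
    have hx : ∀ K ∈ F, ∃ k, fin j k ∈ K ∧ fin j k ∉ U := by
      intro K hKF
      obtain ⟨x, hx, hxU, rfl⟩ := hj K hKF
      cases x with
      | top => exact absurd hxU h.2.2.1
      | inf m => exact absurd hi hxU
      | fin m k => exact ⟨k, hx, hxU⟩
    obtain ⟨k₀, -, hk₀⟩ := hx K₀ hK₀
    obtain ⟨k, hk, hmax⟩ := exists_max_image _ id hfin' ⟨k₀, hk₀⟩
    refine hk (hFU fun K hKF => ?_)
    obtain ⟨l, hl, hlU⟩ := hx K hKF
    exact hup K hKF (show fin j l ≤ fin j k from ⟨rfl, hmax l hlU⟩) hl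
  · refine hi (hFU fun K hKF => ?_)
    obtain ⟨x, hx, hxU, rfl⟩ := hj K hKF
    cases x with
    | top => exact absurd hxU h.2.2.1
    | inf m => exact hx
    | fin m k => exact hup K hKF (show fin m k ≤ inf m from Or.inl rfl) hx

end J

theorem scott_Iic {P : Type} [PartialOrder P] (x : P) : IsOpen[scott P] (Iic x)ᶜ := by
  refine ⟨(isLowerSet_Iic x).compl, fun D a _ _ h3 h4 => ?_⟩
  by_contra hc
  rw [not_nonempty_iff_eq_empty] at hc
  refine h4 (h3.2 fun y hy => ?_)
  by_contra hy'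
  exact (hc ▸ (⟨hy, hy'⟩ : y ∈ D ∩ (Iic x)ᶜ) : y ∈ (∅ : Set P))

open J in
theorem not_wf : ¬ @WellFiltered (J × Unit) (scott (J × Unit)) := by
  letI := scott (J × Unit)
  rintro ⟨-, h⟩
  let K : ℕ → Set (J × Unit) := fun n => {x | x.1 = top ∨ ∃ m, n ≤ m ∧ x.1 = inf m}
  have hle : ∀ x y : J × Unit, x ≤ y ↔ x.1 ≤ y.1 := fun x y => ⟨fun h => h.1, fun h => ⟨h, le_rfl⟩⟩
  obtain ⟨_, ⟨n, rfl⟩, hn⟩ := h (range K) (range_nonempty K) (by
      rintro _ ⟨a, rfl⟩ _ ⟨b, rfl⟩
      refine ⟨_, ⟨max a b, rfl⟩, ?_, ?_⟩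
      · rintro x (h | ⟨m, h1, h2⟩)
        exacts [Or.inl h, Or.inr ⟨m, (le_max_left _ _).trans h1, h2⟩]
      · rintro x (h | ⟨m, h1, h2⟩)
        exacts [Or.inl h, Or.inr ⟨m, (le_max_right _ _).trans h1, h2⟩])
    (by
      rintro _ ⟨n, rfl⟩
      constructor
      · rw [isCompact_iff_finite_subcover]
        intro ι U hU hcov
        classical
        have hc : ∀ m, ∃ i, (inf (n + m), ()) ∈ U i := fun m =>
          mem_iUnion.1 (hcov (Or.inr ⟨n + m, by omega, rfl⟩))
        choose i hi using hc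
        obtain ⟨_, ⟨k, rfl⟩, hk⟩ := (hU (i 0)).2 (range fun k => (fin n k, ())) (inf n, ())
          (range_nonempty _) (by
            rintro _ ⟨a, rfl⟩ _ ⟨b, rfl⟩
            exact ⟨_, ⟨max a b, rfl⟩, ⟨⟨rfl, le_max_left _ _⟩, le_rfl⟩,
              ⟨⟨rfl, le_max_right _ _⟩, le_rfl⟩⟩) (by
            have := col_lub n (D := range (fin n)) (by rintro _ ⟨k, rfl⟩; exact ⟨k, rfl⟩)
              fun m => ⟨m, le_rfl, m, rfl⟩
            constructor
            · rintro _ ⟨k, rfl⟩; exact ⟨Or.inl rfl, le_rfl⟩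
            · intro b hb
              refine ⟨this.2 ?_, le_rfl⟩
              rintro _ ⟨k, rfl⟩
              exact (hb ⟨k, rfl⟩).1) (hi 0)
        refine ⟨(Finset.range (k + 1)).image i, ?_⟩
        rintro ⟨x, ⟨⟩⟩ (hx | ⟨m, h1, hx⟩) <;> simp only at hx <;> subst hx <;>
          simp only [mem_iUnion, Finset.mem_image, Finset.mem_range]
        · exact ⟨i 0, ⟨0, by omega, rfl⟩, (hU (i 0)).1 ((hle _ _).2 (J.le_top _)) hk⟩
        · by_cases hm : k ≤ m
          · exact ⟨i 0, ⟨0, by omega, rfl⟩, (hU (i 0)).1 ((hle (fin n k, ()) (inf m, ())).2 (Or.inr hm)) hk⟩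
          · refine ⟨i (m - n), ⟨m - n, by omega, rfl⟩, ?_⟩
            have := hi (m - n)
            rwa [show n + (m - n) = m by omega] at this
      · refine ⟨(fun y => (Iic y)ᶜ) '' (K n)ᶜ, ?_, ?_⟩
        · rintro _ ⟨y, -, rfl⟩; exact scott_Iic y
        · ext x
          simp only [sInter_image, mem_iInter, mem_compl_iff, mem_Iic]
          constructor
          · intro hx y hy hxy
            apply hy
            have hxy := (hle _ _).1 hxy
            rcases hx with hx | ⟨m, h1, hx⟩ <;> rw [hx] at hxy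
            · left; exact le_antisymm (J.le_top _) hxy
            · rcases y with ⟨y, u⟩
              cases y with
              | fin a b => exact hxy.elim
              | inf a => exact Or.inr ⟨a, by have : m = a := hxy; omega, rfl⟩
              | top => exact Or.inl rfl
          · intro hx
            by_contra hc
            exact hx x hc le_rfl)
    {x | x.1 = top} (by
      refine ⟨fun a b hab ha => le_antisymm (J.le_top _) (by rw [← ha]; exact hab.1), ?_⟩
      intro D a h1 h2 h3 h4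
      have d2 : DirectedOn (· ≤ ·) (Prod.fst '' D) := by
        rintro _ ⟨x, hx, rfl⟩ _ ⟨y, hy, rfl⟩
        obtain ⟨z, hz, h5, h6⟩ := h2 x hx y hy
        exact ⟨z.1, ⟨z, hz, rfl⟩, h5.1, h6.1⟩
      have d3 : ∀ b ∈ upperBounds (Prod.fst '' D), top ≤ b := by
        intro b hb
        have : a ≤ (b, ()) := h3.2 fun x hx => (hle _ _).2 (hb ⟨x, hx, rfl⟩)
        rw [← h4]; exact this.1
      rcases directed_cases (h1.image _) d2 with ⟨b, ⟨x, hx, rfl⟩, hb⟩ | ⟨j, hj⟩
      · exact ⟨x, hx, le_antisymm (J.le_top _) (d3 _ hb)⟩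
      · exact (d3 _ hj.1).elim)
    (by
      intro x hx
      rcases hx _ ⟨0, rfl⟩ with h | ⟨m, -, h⟩
      · exact h
      · rcases hx _ ⟨m + 1, rfl⟩ with h' | ⟨m', h1, h'⟩
        · exact h'
        · rw [h] at h'; cases h'; omega)
  have : (inf n, ()) ∈ K n := Or.inr ⟨n, le_rfl, rfl⟩
  cases hn this

theorem result : ∃ (P Q : Type) (_ : PartialOrder P) (_ : PartialOrder Q),
    WFDcpo P ∧ WFDcpo Q ∧ ¬ @WellFiltered (P × Q) (scott (P × Q)) := by
  refine ⟨J, Unit, inferInstance, inferInstance, ⟨?_, J.tau, J.tau_closure, J.tau_wf⟩,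
    ⟨fun D _ _ => ⟨(), fun _ _ => le_rfl, fun _ _ => le_rfl⟩, ⊥, ?_, ?_⟩, not_wf⟩
  · intro D h1 h2
    rcases J.directed_cases h1 h2 with ⟨a, ha⟩ | ⟨j, hj⟩
    exacts [⟨a, ha.isLUB⟩, ⟨_, hj⟩]
  · intro x
    ext y
    exact ⟨fun _ => mem_Iic.2 le_rfl, fun _ => @subset_closure _ ⊥ {x} y (Subsingleton.elim _ _)⟩
  · refine ⟨inferInstance, fun F _ _ _ U _ hU => ?_⟩
    by_contra hc
    push Not at hc
    have h1 : () ∈ ⋂₀ F := fun K hK => by
      obtain ⟨x, hx, -⟩ := not_subset.1 (hc K hK)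
      exact hx
    rename_i hne _ _ _
    obtain ⟨K, hK⟩ := hne
    obtain ⟨x, -, hx⟩ := not_subset.1 (hc K hK)
    exact hx (hU h1)

end Pool.Agent.Results.MP_70096d_gt.NotScottWF
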